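import Mathlib
import Pool.Agent.H581R2.QE

/-!
Finite unions of locally closed sets; orbits which are such sets; semialgebraic sets.
-/

set_option autoImplicit false

namespace Pool.Agent.H13LA

open Pool.Agent.H581R2

/-- finite union of locally closed sets -/
def FLC {X : Type*} [TopologicalSpace X] (S : Set X) : Prop :=
  ∃ (τ : Type) (_ : Finite τ) (L : τ → Set X), (∀ i, IsLocallyClosed (L i)) ∧ S = ⋃ i, L i

theorem FLC.preimage {X Y : Type*} [TopologicalSpace X] [TopologicalSpace Y] {S : Set Y}
    (h : FLC S) {f : X → Y} (hf : Continuous f) : FLC (f ⁻¹' S) := by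
  obtain ⟨τ, hτ, L, hL, rfl⟩ := h
  exact ⟨τ, hτ, fun i => f ⁻¹' (L i), fun i => (hL i).preimage hf, by rw [Set.preimage_iUnion]⟩

/-- a nonempty finite union of locally closed sets contains a nonempty relatively open subset of
its closure -/
theorem FLC.exists_open {X : Type*} [TopologicalSpace X] {S : Set X} (h : FLC S)
    (hS : S.Nonempty) : ∃ W : Set X, IsOpen W ∧ (W ∩ S).Nonempty ∧ W ∩ closure S ⊆ S := by
  classical
  obtain ⟨τ, hτ, L, hL, rfl⟩ := h
  have := Fintype.ofFinite τ
  have key : ∀ s : Finset τ, (⋃ i ∈ s, L i).Nonempty → ∃ W : Set X, IsOpen W ∧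
      (W ∩ ⋃ i ∈ s, L i).Nonempty ∧ W ∩ closure (⋃ i ∈ s, L i) ⊆ ⋃ i ∈ s, L i := by
    intro s
    induction s using Finset.induction_on with
    | empty => intro h; simp at h
    | insert a s ha ih =>
      intro hne
      rw [Finset.set_biUnion_insert] at hne ⊢
      set S' := ⋃ i ∈ s, L i with hS'
      by_cases hc : L a ⊆ closure S'
      · have hcl : closure (L a ∪ S') = closure S' := by
          rw [closure_union]
          exact Set.union_eq_right.mpr (closure_minimal hc isClosed_closure)
        have hS'ne : S'.Nonempty := by
          rcases hne with ⟨x, hx | hx⟩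
          · by_contra h
            rw [Set.not_nonempty_iff_eq_empty.mp h, closure_empty] at hc
            exact hc hx
          · exact ⟨x, hx⟩
        obtain ⟨W, hW, hW1, hW2⟩ := ih hS'ne
        refine ⟨W, hW, hW1.mono (Set.inter_subset_inter_right _ Set.subset_union_right), ?_⟩
        rw [hcl]
        exact hW2.trans Set.subset_union_right
      · obtain ⟨x, hx, hxc⟩ := Set.not_subset.mp hc
        obtain ⟨U, F, hU, hF, hUF⟩ := hL a
        refine ⟨(closure S')ᶜ ∩ U, isClosed_closure.isOpen_compl.inter hU, ?_, ?_⟩
        · refine ⟨x, ⟨hxc, ?_⟩, Or.inl hx⟩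
          rw [hUF] at hx
          exact hx.1
        · rintro y ⟨⟨hy1, hy2⟩, hy3⟩
          rw [closure_union] at hy3
          rcases hy3 with hy3 | hy3
          · left
            rw [hUF]
            refine ⟨hy2, ?_⟩
            have : closure (L a) ⊆ F := closure_minimal (by rw [hUF]; exact Set.inter_subset_right) hF
            exact this hy3
          · exact absurd hy3 hy1
  have h2 := key Finset.univ
  simpa using h2 (by simpa using hS)

/-- Two points each in the closure of the orbit of the other are in the same orbit, if orbits are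
finite unions of locally closed sets. -/
theorem orbit_eq {X G : Type*} [TopologicalSpace X] [Group G] [MulAction G X]
    (hc : ∀ g : G, Continuous fun x : X => g • x) {x y : X}
    (hflc : FLC (MulAction.orbit G x)) (h1 : y ∈ closure (MulAction.orbit G x))
    (h2 : x ∈ closure (MulAction.orbit G y)) : y ∈ MulAction.orbit G x := by
  obtain ⟨W, hW, ⟨z, hzW, hz⟩, hsub⟩ := hflc.exists_open ⟨x, MulAction.mem_orbit_self x⟩
  obtain ⟨g, rfl⟩ := hz
  -- the neighbourhood `{u | g • u ∈ W}` of `x`
  have hW' : IsOpen ((fun u : X => g • u) ⁻¹' W) := hW.preimage (hc g)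
  obtain ⟨u, hu, k, rfl⟩ := mem_closure_iff.mp h2 _ hW' hzW
  have hinv : ∀ k : G, ∀ y ∈ closure (MulAction.orbit G x), k • y ∈ closure (MulAction.orbit G x) := by
    intro k y hy
    have h3 : (fun u : X => k • u) '' closure (MulAction.orbit G x) ⊆
        closure ((fun u : X => k • u) '' MulAction.orbit G x) :=
      image_closure_subset_closure_image (hc k)
    refine closure_mono ?_ (h3 ⟨y, hy, rfl⟩)
    rintro _ ⟨_, ⟨g, rfl⟩, rfl⟩
    exact ⟨k * g, by simp [mul_smul]⟩
  have h4 : g • k • y ∈ MulAction.orbit G x := hsub ⟨hu, hinv g _ (hinv k _ h1)⟩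
  rw [← mul_smul] at h4
  have := (MulAction.mem_orbit_iff).mp h4
  obtain ⟨l, hl⟩ := this
  refine ⟨(g * k)⁻¹ * l, ?_⟩
  show ((g * k)⁻¹ * l) • x = y
  rw [mul_smul]
  have hl' : l • x = (g * k) • y := hl
  rw [hl', inv_smul_smul]

theorem continuous_aeval {ι X : Type} [TopologicalSpace X] {f : X → ι → ℝ} (hf : Continuous f)
    (q : MvPolynomial ι ℚ) : Continuous fun x => MvPolynomial.aeval (f x) q := by
  induction q using MvPolynomial.induction_on with
  | C a => simp only [MvPolynomial.aeval_C]; exact continuous_const
  | add p q hp hq => simp only [map_add]; exact hp.add hq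
  | mul_X p i hp =>
    simp only [map_mul, MvPolynomial.aeval_X]
    exact hp.mul ((continuous_apply i).comp hf)

/-- continuous preimages of semialgebraic sets are finite unions of locally closed sets -/
theorem SA.flc {ι X : Type} [TopologicalSpace X] {S : Set (ι → ℝ)} (hS : SA S)
    {f : X → ι → ℝ} (hf : Continuous f) : FLC (f ⁻¹' S) := by
  classical
  obtain ⟨Q, hQ⟩ := hS
  let sg : X → (Q → SignType) := fun x q => SignType.sign (MvPolynomial.aeval (f x) q.1)
  let L : (Q → SignType) → Set X := fun σ => if ∃ x ∈ f ⁻¹' S, sg x = σ then {x | sg x = σ} else ∅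
  refine ⟨Q → SignType, inferInstance, L, fun σ => ?_, ?_⟩
  · show IsLocallyClosed (if ∃ x ∈ f ⁻¹' S, sg x = σ then {x | sg x = σ} else ∅)
    split_ifs with h
    · have e : {x | sg x = σ} = (⋂ q : Q, if σ q = 0 then Set.univ else {x | sg x q = σ q}) ∩
          ⋂ q : Q, if σ q = 0 then {x | sg x q = 0} else Set.univ := by
        ext x
        simp only [Set.mem_inter_iff, Set.mem_iInter, Set.mem_setOf_eq]
        constructor
        · intro hx
          refine ⟨fun q => ?_, fun q => ?_⟩
          · split_ifs with hq
            · trivial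
            · exact congrFun hx q
          · split_ifs with hq
            · show sg x q = 0
              rw [congrFun hx q, hq]
            · trivial
        · rintro ⟨h1, h2⟩
          funext q
          have a1 := h1 q
          have a2 := h2 q
          by_cases hq : σ q = 0
          · rw [if_pos hq] at a2
            rw [hq]; exact a2
          · rw [if_neg hq] at a1
            exact a1
      rw [e]
      refine ⟨_, _, isOpen_iInter_of_finite fun q => ?_, isClosed_iInter fun q => ?_, rfl⟩
      · split_ifs with hq
        · exact isOpen_univ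
        · have hcont := continuous_aeval hf q.1
          rcases hs : σ q with _ | _ | _
          · exact absurd hs hq
          · have : {x | sg x q = SignType.neg} = {x | MvPolynomial.aeval (f x) q.1 < 0} := by
              ext x
              exact sign_eq_neg_one_iff
            rw [this]
            exact isOpen_lt hcont continuous_const
          · have : {x | sg x q = SignType.pos} = {x | 0 < MvPolynomial.aeval (f x) q.1} := by
              ext x
              exact sign_eq_one_iff
            rw [this]
            exact isOpen_lt continuous_const hcont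
      · split_ifs with hq
        · have hcont := continuous_aeval hf q.1
          have : {x | sg x q = 0} = {x | MvPolynomial.aeval (f x) q.1 = 0} := by
            ext x
            exact sign_eq_zero_iff
          rw [this]
          exact isClosed_eq hcont continuous_const
        · exact isClosed_univ
    · exact ⟨∅, ∅, isOpen_empty, isClosed_empty, by simp⟩
  · ext x
    simp only [Set.mem_iUnion]
    constructor
    · intro hx
      refine ⟨sg x, ?_⟩
      show x ∈ (if ∃ x' ∈ f ⁻¹' S, sg x' = sg x then {x' | sg x' = sg x} else ∅)
      rw [if_pos ⟨x, hx, rfl⟩]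
      rfl
    · rintro ⟨σ, hσ⟩
      change x ∈ (if ∃ x' ∈ f ⁻¹' S, sg x' = σ then {x' | sg x' = σ} else ∅) at hσ
      split_ifs at hσ with h
      · obtain ⟨x', hx', hs⟩ := h
        have hx : sg x = σ := hσ
        refine hQ (f x') (f x) (fun q hq => ?_) hx'
        have := congrFun (hs.trans hx.symm) ⟨q, hq⟩
        exact this
      · exact absurd hσ (Set.notMem_empty x)

/-- elimination of a block of quantifiers -/
theorem exists_fin_block (n : ℕ) : ∀ {α : Type} {p : (α ⊕ Fin n → ℝ) → Prop}, SAP p →
    SAP (fun v : α → ℝ => ∃ x : Fin n → ℝ, p (Sum.elim v x)) := by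
  induction n with
  | zero =>
    intro α p hp
    refine SAP.congr (hp.preimage (φ := fun v : α → ℝ => Sum.elim v (fun i : Fin 0 => i.elim0))
      (fun k => ?_)) (fun v => ?_)
    · cases k with
      | inl a => exact PF.coord a
      | inr i => exact i.elim0
    · constructor
      · rintro ⟨x, hx⟩
        have : x = fun i : Fin 0 => i.elim0 := funext fun i => i.elim0
        rw [this] at hx
        exact hx
      · intro h
        exact ⟨_, h⟩
  | succ n ih =>
    intro α p hp
    let φ : (Option α ⊕ Fin n → ℝ) → (α ⊕ Fin (n + 1) → ℝ) := fun u =>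
      Sum.elim (fun a => u (Sum.inl (some a)))
        (Fin.cons (u (Sum.inl none)) (fun i => u (Sum.inr i)) : Fin (n + 1) → ℝ)
    have hφ : ∀ k, PF (fun u => φ u k) := by
      intro k
      cases k with
      | inl a => exact PF.coord _
      | inr i =>
        refine Fin.cases ?_ (fun i => ?_) i
        · exact PF.coord (Sum.inl none)
        · exact PF.coord (Sum.inr i)
    have h1 := ih (hp.preimage hφ)
    refine SAP.congr (SAP.exists_real h1) fun v => ?_
    constructor
    · rintro ⟨x, hx⟩
      refine ⟨x 0, fun i => x i.succ, ?_⟩
      have : φ (Sum.elim (ext (x 0) v) fun i => x i.succ) = Sum.elim v x := by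
        funext k
        cases k with
        | inl a => rfl
        | inr i =>
          refine Fin.cases ?_ (fun i => ?_) i
          · rfl
          · rfl
      rw [this]
      exact hx
    · rintro ⟨t, x, hx⟩
      refine ⟨Fin.cons t x, ?_⟩
      have : φ (Sum.elim (ext t v) x) = Sum.elim v (Fin.cons t x : Fin (n + 1) → ℝ) := by
        funext k
        cases k with
        | inl a => rfl
        | inr i =>
          refine Fin.cases ?_ (fun i => ?_) i
          · rfl
          · rfl
      rw [← this]
      exact hx

theorem exists_block {α κ : Type} [Fintype κ] {p : (α ⊕ κ → ℝ) → Prop} (hp : SAP p) :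
    SAP (fun v : α → ℝ => ∃ x : κ → ℝ, p (Sum.elim v x)) := by
  classical
  let e := Fintype.equivFin κ
  let φ : (α ⊕ Fin (Fintype.card κ) → ℝ) → (α ⊕ κ → ℝ) := fun u =>
    Sum.elim (fun a => u (Sum.inl a)) (fun k => u (Sum.inr (e k)))
  have hφ : ∀ k, PF (fun u => φ u k) := by
    intro k
    cases k with
    | inl a => exact PF.coord _
    | inr i => exact PF.coord _
  refine SAP.congr (exists_fin_block _ (hp.preimage hφ)) fun v => ?_
  constructor
  · rintro ⟨x, hx⟩
    refine ⟨fun i => x (e.symm i), ?_⟩
    have : φ (Sum.elim v fun i => x (e.symm i)) = Sum.elim v x := by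
      funext k
      cases k with
      | inl a => rfl
      | inr i =>
        show x (e.symm (e i)) = x i
        rw [e.symm_apply_apply]
    rw [this]; exact hx
  · rintro ⟨x, hx⟩
    refine ⟨fun k => x (e k), ?_⟩
    have : φ (Sum.elim v x) = Sum.elim v fun k => x (e k) := by
      funext k
      cases k <;> rfl
    rw [← this]; exact hx

end Pool.Agent.H13LA
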