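import Mathlib
import Pool.Agent.H13LA.Top

/-!
The orbits of the automorphism group of a finite-dimensional algebra, in coordinates.
-/

set_option autoImplicit false

namespace Pool.Agent.H13LA

open Pool.Agent.H581R2

section coord

variable {N : Type} [Fintype N] [DecidableEq N]

/-- the orbit of `x` under the matrices which are invertible, commute with `J` and respect the
structure constants `m` -/
def orbC (m : N → N → N → ℝ) (J : N → N → ℝ) (x : N → ℝ) : Set (N → ℝ) :=
  {y | ∃ M M' : N → N → ℝ,
    (∀ i j, ∑ k, M i k * M' k j = if i = j then 1 else 0) ∧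
    (∀ i j, ∑ k, M' i k * M k j = if i = j then 1 else 0) ∧
    (∀ i k, ∑ l, J i l * M l k = ∑ l, M i l * J l k) ∧
    (∀ i j k, ∑ l, m i j l * M l k = ∑ a, ∑ b, M i a * M j b * m a b k) ∧
    (∀ k, y k = ∑ i, x i * M i k)}

/-- variables: `y`, `x`, `m`, `J` -/
abbrev Va (N : Type) : Type := N ⊕ (N ⊕ ((N × N × N) ⊕ (N × N)))

/-- variables: `M`, `M'` -/
abbrev Vb (N : Type) : Type := (N × N) ⊕ (N × N)

theorem flc_orbC (m : N → N → N → ℝ) (J : N → N → ℝ) (x : N → ℝ) : FLC (orbC m J x) := by
  classical
  let P : (Va N ⊕ Vb N → ℝ) → Prop := fun w =>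
    (∀ i ∈ (Finset.univ : Finset N), ∀ j ∈ (Finset.univ : Finset N),
      ∑ k, w (Sum.inr (Sum.inl (i, k))) * w (Sum.inr (Sum.inr (k, j))) =
        if i = j then 1 else 0) ∧
    (∀ i ∈ (Finset.univ : Finset N), ∀ j ∈ (Finset.univ : Finset N),
      ∑ k, w (Sum.inr (Sum.inr (i, k))) * w (Sum.inr (Sum.inl (k, j))) =
        if i = j then 1 else 0) ∧
    (∀ i ∈ (Finset.univ : Finset N), ∀ k ∈ (Finset.univ : Finset N),
      ∑ l, w (Sum.inl (Sum.inr (Sum.inr (Sum.inr (i, l))))) * w (Sum.inr (Sum.inl (l, k))) =
        ∑ l, w (Sum.inr (Sum.inl (i, l))) * w (Sum.inl (Sum.inr (Sum.inr (Sum.inr (l, k)))))) ∧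
    (∀ i ∈ (Finset.univ : Finset N), ∀ j ∈ (Finset.univ : Finset N),
      ∀ k ∈ (Finset.univ : Finset N),
      ∑ l, w (Sum.inl (Sum.inr (Sum.inr (Sum.inl (i, j, l))))) * w (Sum.inr (Sum.inl (l, k))) =
        ∑ a, ∑ b, w (Sum.inr (Sum.inl (i, a))) * w (Sum.inr (Sum.inl (j, b))) *
          w (Sum.inl (Sum.inr (Sum.inr (Sum.inl (a, b, k)))))) ∧
    (∀ k ∈ (Finset.univ : Finset N), w (Sum.inl (Sum.inl k)) =
      ∑ i, w (Sum.inl (Sum.inr (Sum.inl i))) * w (Sum.inr (Sum.inl (i, k))))
  have hite : ∀ i j : N, PF (fun _ : Va N ⊕ Vb N → ℝ => if i = j then (1 : ℝ) else 0) := by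
    intro i j
    by_cases h : i = j
    · simpa [h] using PF.one
    · simpa [h] using PF.zero
  have hP : SAP P := by
    refine SAP.and ?_ (SAP.and ?_ (SAP.and ?_ (SAP.and ?_ ?_)))
    · exact SAP.forall_mem _ fun i _ => SAP.forall_mem _ fun j _ =>
        SAP.eq (PF.sum _ fun k _ => (PF.coord _).mul (PF.coord _)) (hite i j)
    · exact SAP.forall_mem _ fun i _ => SAP.forall_mem _ fun j _ =>
        SAP.eq (PF.sum _ fun k _ => (PF.coord _).mul (PF.coord _)) (hite i j)
    · exact SAP.forall_mem _ fun i _ => SAP.forall_mem _ fun j _ =>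
        SAP.eq (PF.sum _ fun k _ => (PF.coord _).mul (PF.coord _))
          (PF.sum _ fun k _ => (PF.coord _).mul (PF.coord _))
    · exact SAP.forall_mem _ fun i _ => SAP.forall_mem _ fun j _ => SAP.forall_mem _ fun k _ =>
        SAP.eq (PF.sum _ fun k _ => (PF.coord _).mul (PF.coord _))
          (PF.sum _ fun a _ => PF.sum _ fun b _ => ((PF.coord _).mul (PF.coord _)).mul (PF.coord _))
    · exact SAP.forall_mem _ fun k _ => SAP.eq (PF.coord _)
        (PF.sum _ fun i _ => (PF.coord _).mul (PF.coord _))
  have hS := exists_block hP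
  let f : (N → ℝ) → (Va N → ℝ) := fun y => Sum.elim y (Sum.elim x
    (Sum.elim (fun t => m t.1 t.2.1 t.2.2) (fun t => J t.1 t.2)))
  have hf : Continuous f := by
    refine continuous_pi fun v => ?_
    rcases v with i | i | i | i
    · exact continuous_apply i
    · exact continuous_const
    · exact continuous_const
    · exact continuous_const
  have h := SA.flc hS hf
  have e : orbC m J x = f ⁻¹' {v | ∃ z : Vb N → ℝ, P (Sum.elim v z)} := by
    ext y
    simp only [Set.mem_preimage, Set.mem_setOf_eq, orbC]
    constructor
    · rintro ⟨M, M', h1, h2, h3, h4, h5⟩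
      refine ⟨Sum.elim (fun t => M t.1 t.2) (fun t => M' t.1 t.2), fun i _ j _ => h1 i j,
        fun i _ j _ => h2 i j, fun i _ j _ => h3 i j, fun i _ j _ k _ => h4 i j k,
        fun k _ => h5 k⟩
    · rintro ⟨z, h1, h2, h3, h4, h5⟩
      exact ⟨fun i j => z (Sum.inl (i, j)), fun i j => z (Sum.inr (i, j)),
        fun i j => h1 i (Finset.mem_univ _) j (Finset.mem_univ _),
        fun i j => h2 i (Finset.mem_univ _) j (Finset.mem_univ _),
        fun i j => h3 i (Finset.mem_univ _) j (Finset.mem_univ _),
        fun i j k => h4 i (Finset.mem_univ _) j (Finset.mem_univ _) k (Finset.mem_univ _),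
        fun k => h5 k (Finset.mem_univ _)⟩
  rw [e]
  exact h

end coord

section alg

variable {𝕜 : Type*} [RCLike 𝕜] {A : Type*} [NormedAddCommGroup A] [NormedSpace 𝕜 A]
  [FiniteDimensional 𝕜 A]

/-- automorphisms of an algebra -/
def autGroup (μ : A →ₗ[𝕜] A →ₗ[𝕜] A) : Subgroup (A ≃ₗ[𝕜] A) where
  carrier := {ψ | ∀ a b, ψ (μ a b) = μ (ψ a) (ψ b)}
  mul_mem' := by
    intro ψ χ h1 h2 a b
    show ψ (χ (μ a b)) = _
    rw [h2, h1]; rfl
  one_mem' := fun a b => rfl
  inv_mem' := by
    intro ψ h a b
    show ψ.symm (μ a b) = μ (ψ.symm a) (ψ.symm b)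
    rw [LinearEquiv.symm_apply_eq, h]
    simp

instance (μ : A →ₗ[𝕜] A →ₗ[𝕜] A) : MulAction (autGroup μ) A where
  smul g x := g.1 x
  one_smul x := rfl
  mul_smul g h x := rfl

theorem smul_def' (μ : A →ₗ[𝕜] A →ₗ[𝕜] A) (g : autGroup μ) (x : A) : g • x = g.1 x := rfl

theorem flc_orbit (μ : A →ₗ[𝕜] A →ₗ[𝕜] A) (x : A) : FLC (MulAction.orbit (autGroup μ) x) := by
  classical
  letI : NormedSpace ℝ A := NormedSpace.restrictScalars ℝ 𝕜 A
  haveI : IsScalarTower ℝ 𝕜 A := RestrictScalars.isScalarTower ℝ 𝕜 A
  haveI : FiniteDimensional ℝ A := FiniteDimensional.trans ℝ 𝕜 A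
  let b := Module.finBasis ℝ A
  set N := Fin (Module.finrank ℝ A)
  let m : N → N → N → ℝ := fun i j k => b.repr (μ (b i) (b j)) k
  let J : N → N → ℝ := fun i k => b.repr ((RCLike.I : 𝕜) • b i) k
  let f : A → N → ℝ := fun y k => b.repr y k
  have hf : Continuous f := b.equivFunL.continuous
  have hrs : ∀ (r : ℝ) (y : A), r • y = (r : 𝕜) • y := fun r y => by
    rw [← algebraMap_smul 𝕜 r y]
  have hμ1 : ∀ (r : ℝ) (y z : A), μ (r • y) z = r • μ y z := by
    intro r y z; rw [hrs, hrs, map_smul]; rfl
  have hμ2 : ∀ (r : ℝ) (y z : A), μ y (r • z) = r • μ y z := by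
    intro r y z; rw [hrs, hrs, map_smul]
  have hexp : ∀ y : A, y = ∑ i, f y i • b i := fun y => (b.sum_repr y).symm
  have hμe : ∀ y z : A, μ y z = ∑ i, ∑ j, (f y i * f z j) • μ (b i) (b j) := by
    intro y z
    have hstep : μ y z = ∑ i, μ (f y i • b i) z := by
      have h0 : μ (∑ i, f y i • b i) z = ∑ i, μ (f y i • b i) z := by
        rw [map_sum μ, LinearMap.sum_apply]
      rw [← h0, ← hexp y]
    have hstep2 : ∀ i, μ (b i) z = ∑ j, μ (b i) (f z j • b j) := by
      intro i
      rw [← map_sum (μ (b i)), ← hexp z]
    rw [hstep]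
    refine Finset.sum_congr rfl fun i _ => ?_
    rw [hμ1, hstep2, Finset.smul_sum]
    refine Finset.sum_congr rfl fun j _ => ?_
    rw [hμ2, smul_smul]
  have hfsum : ∀ (s : Finset N) (c : N → ℝ) (v : N → A) (k : N),
      f (∑ i ∈ s, c i • v i) k = ∑ i ∈ s, c i * f (v i) k := by
    intro s c v k
    show b.repr (∑ i ∈ s, c i • v i) k = _
    rw [map_sum, Finsupp.finsetSum_apply]
    exact Finset.sum_congr rfl fun i _ => by rw [map_smul]; rfl
  have e : MulAction.orbit (autGroup μ) x = f ⁻¹' orbC m J (f x) := by
    ext y
    constructor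
    · rintro ⟨g, rfl⟩
      have hgr : ∀ (r : ℝ) (z : A), g.1 (r • z) = r • g.1 z := by
        intro r z; rw [hrs, hrs, map_smul]
      have hgr' : ∀ (r : ℝ) (z : A), g.1.symm (r • z) = r • g.1.symm z := by
        intro r z; rw [hrs, hrs, map_smul]
      have hgx : ∀ z : A, g.1 z = ∑ i, f z i • g.1 (b i) := by
        intro z
        conv_lhs => rw [hexp z]
        rw [map_sum]
        exact Finset.sum_congr rfl fun i _ => hgr _ _
      have hgx' : ∀ z : A, g.1.symm z = ∑ i, f z i • g.1.symm (b i) := by
        intro z
        conv_lhs => rw [hexp z]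
        rw [map_sum]
        exact Finset.sum_congr rfl fun i _ => hgr' _ _
      refine ⟨fun i k => f (g.1 (b i)) k, fun i k => f (g.1.symm (b i)) k, ?_, ?_, ?_, ?_, ?_⟩
      · intro i j
        rw [← hfsum, ← hgx', LinearEquiv.symm_apply_apply]
        show b.repr (b i) j = _
        rw [b.repr_self, Finsupp.single_apply]
      · intro i j
        rw [← hfsum, ← hgx, LinearEquiv.apply_symm_apply]
        show b.repr (b i) j = _
        rw [b.repr_self, Finsupp.single_apply]
      · intro i k
        show ∑ l, f ((RCLike.I : 𝕜) • b i) l * f (g.1 (b l)) k =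
          ∑ l, f (g.1 (b i)) l * f ((RCLike.I : 𝕜) • b l) k
        rw [← hfsum, ← hgx, ← hfsum, map_smul]
        congr 1
        conv_lhs => rw [hexp (g.1 (b i))]
        rw [Finset.smul_sum]
        exact Finset.sum_congr rfl fun l _ => smul_comm _ _ _
      · intro i j k
        show ∑ l, f (μ (b i) (b j)) l * f (g.1 (b l)) k =
          ∑ a, ∑ c, f (g.1 (b i)) a * f (g.1 (b j)) c * f (μ (b a) (b c)) k
        rw [← hfsum, ← hgx, g.2 (b i) (b j), hμe]
        show b.repr _ k = _
        rw [map_sum, Finsupp.finsetSum_apply]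
        refine Finset.sum_congr rfl fun a _ => ?_
        exact hfsum _ _ _ _
      · intro k
        rw [← hfsum]
        exact congrArg (fun z => f z k) (hgx x)
    · rintro ⟨M, M', h1, h2, h3, h4, h5⟩
      -- the linear maps
      let F : A →ₗ[ℝ] A := b.constr ℝ fun i => ∑ k, M i k • b k
      let F' : A →ₗ[ℝ] A := b.constr ℝ fun i => ∑ k, M' i k • b k
      have hF : ∀ i, F (b i) = ∑ k, M i k • b k := fun i => b.constr_basis ℝ _ i
      have hF' : ∀ i, F' (b i) = ∑ k, M' i k • b k := fun i => b.constr_basis ℝ _ i
      have hFF' : ∀ z, F' (F z) = z := by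
        intro z
        have : F'.comp F = LinearMap.id := by
          apply b.ext
          intro i
          rw [LinearMap.comp_apply, hF, map_sum]
          have : ∀ k ∈ (Finset.univ : Finset N), F' (M i k • b k) =
              ∑ j, (M i k * M' k j) • b j := by
            intro k _
            rw [map_smul, hF', Finset.smul_sum]
            exact Finset.sum_congr rfl fun j _ => by rw [smul_smul]
          rw [Finset.sum_congr rfl this, Finset.sum_comm]
          have : ∀ j ∈ (Finset.univ : Finset N), ∑ k, (M i k * M' k j) • b j =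
              (if i = j then (1 : ℝ) else 0) • b j := by
            intro j _
            rw [← Finset.sum_smul, h1]
          rw [Finset.sum_congr rfl this, LinearMap.id_apply, Finset.sum_eq_single i]
          · rw [if_pos rfl, one_smul]
          · intro j _ hj
            rw [if_neg (Ne.symm hj), zero_smul]
          · intro h
            exact absurd (Finset.mem_univ i) h
        exact LinearMap.congr_fun this z
      have hF'F : ∀ z, F (F' z) = z := by
        intro z
        have : F.comp F' = LinearMap.id := by
          apply b.ext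
          intro i
          rw [LinearMap.comp_apply, hF', map_sum]
          have : ∀ k ∈ (Finset.univ : Finset N), F (M' i k • b k) =
              ∑ j, (M' i k * M k j) • b j := by
            intro k _
            rw [map_smul, hF, Finset.smul_sum]
            exact Finset.sum_congr rfl fun j _ => by rw [smul_smul]
          rw [Finset.sum_congr rfl this, Finset.sum_comm]
          have : ∀ j ∈ (Finset.univ : Finset N), ∑ k, (M' i k * M k j) • b j =
              (if i = j then (1 : ℝ) else 0) • b j := by
            intro j _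
            rw [← Finset.sum_smul, h2]
          rw [Finset.sum_congr rfl this, LinearMap.id_apply, Finset.sum_eq_single i]
          · rw [if_pos rfl, one_smul]
          · intro j _ hj
            rw [if_neg (Ne.symm hj), zero_smul]
          · intro h
            exact absurd (Finset.mem_univ i) h
        exact LinearMap.congr_fun this z
      have hfF : ∀ z k, f (F z) k = ∑ i, f z i * M i k := by
        intro z k
        conv_lhs => rw [hexp z]
        rw [map_sum]
        have : ∀ i ∈ (Finset.univ : Finset N), F (f z i • b i) = f z i • F (b i) :=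
          fun i _ => map_smul _ _ _
        rw [Finset.sum_congr rfl this, hfsum]
        refine Finset.sum_congr rfl fun i _ => ?_
        rw [hF, hfsum]
        congr 1
        have : ∀ l ∈ (Finset.univ : Finset N), M i l * f (b l) k = if l = k then M i k else 0 := by
          intro l _
          show M i l * b.repr (b l) k = _
          rw [b.repr_self, Finsupp.single_apply]
          split_ifs with h
          · rw [h, mul_one]
          · rw [mul_zero]
        rw [Finset.sum_congr rfl this, Finset.sum_eq_single k]
        · rw [if_pos rfl]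
        · intro l _ hl
          rw [if_neg hl]
        · intro h
          exact absurd (Finset.mem_univ k) h
      have hinj : ∀ y z : A, (∀ k, f y k = f z k) → y = z := by
        intro y z h
        rw [hexp y, hexp z]
        exact Finset.sum_congr rfl fun i _ => by rw [h i]
      -- commutes with `I`
      have hFI : ∀ z, F ((RCLike.I : 𝕜) • z) = (RCLike.I : 𝕜) • F z := by
        intro z
        have hb : ∀ i, F ((RCLike.I : 𝕜) • b i) = (RCLike.I : 𝕜) • F (b i) := by
          intro i
          apply hinj
          intro k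
          rw [hfF]
          have e1 : (RCLike.I : 𝕜) • F (b i) = ∑ l, M i l • ((RCLike.I : 𝕜) • b l) := by
            rw [hF, Finset.smul_sum]
            exact Finset.sum_congr rfl fun l _ => smul_comm _ _ _
          rw [e1, hfsum]
          exact h3 i k
        conv_lhs => rw [hexp z]
        rw [Finset.smul_sum, map_sum]
        conv_rhs => rw [hexp z]
        rw [map_sum, Finset.smul_sum]
        refine Finset.sum_congr rfl fun i _ => ?_
        rw [smul_comm, map_smul, hb, map_smul, smul_comm]
      have hFk : ∀ (c : 𝕜) (z : A), F (c • z) = c • F z := by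
        intro c z
        have hc : ∀ z : A, c • z = (RCLike.re c : ℝ) • z +
            (RCLike.im c : ℝ) • ((RCLike.I : 𝕜) • z) := by
          intro z
          conv_lhs => rw [← RCLike.re_add_im c]
          rw [add_smul, hrs, hrs, smul_smul]
        rw [hc z, map_add, map_smul, map_smul, hFI, ← hc]
      let ψ : A ≃ₗ[𝕜] A :=
        { toFun := F
          map_add' := F.map_add
          map_smul' := hFk
          invFun := F'
          left_inv := hFF'
          right_inv := hF'F }
      have hψ : ∀ a c, ψ (μ a c) = μ (ψ a) (ψ c) := by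
        intro a c
        show F (μ a c) = μ (F a) (F c)
        have hb : ∀ i j, F (μ (b i) (b j)) = μ (F (b i)) (F (b j)) := by
          intro i j
          apply hinj
          intro k
          rw [hfF]
          have e1 : μ (F (b i)) (F (b j)) = ∑ a, ∑ c, (M i a * M j c) • μ (b a) (b c) := by
            rw [hμe]
            have e2 : ∀ i l, f (F (b i)) l = M i l := by
              intro i l
              rw [hfF]
              have : ∀ k ∈ (Finset.univ : Finset N), f (b i) k * M k l =
                  if i = k then M i l else 0 := by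
                intro k _
                show b.repr (b i) k * _ = _
                rw [b.repr_self, Finsupp.single_apply]
                split_ifs with h
                · rw [h, one_mul]
                · rw [zero_mul]
              rw [Finset.sum_congr rfl this, Finset.sum_eq_single i]
              · rw [if_pos rfl]
              · intro k _ hk
                rw [if_neg (Ne.symm hk)]
              · intro h
                exact absurd (Finset.mem_univ i) h
            simp only [e2]
          rw [e1]
          show _ = b.repr (∑ a, ∑ c, (M i a * M j c) • μ (b a) (b c)) k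
          rw [map_sum, Finsupp.finsetSum_apply]
          refine (h4 i j k).trans (Finset.sum_congr rfl fun a _ => ?_)
          exact (hfsum _ _ _ _).symm
        have hFa : ∀ a, F a = ∑ i, f a i • F (b i) := by
          intro a
          conv_lhs => rw [hexp a]
          rw [map_sum]
          exact Finset.sum_congr rfl fun i _ => map_smul _ _ _
        have hl : F (μ a c) = ∑ i, ∑ j, (f a i * f c j) • F (μ (b i) (b j)) := by
          conv_lhs => rw [hμe a c]
          rw [map_sum]
          refine Finset.sum_congr rfl fun i _ => ?_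
          rw [map_sum]
          exact Finset.sum_congr rfl fun j _ => map_smul _ _ _
        have hr : μ (F a) (F c) = ∑ i, μ (f a i • F (b i)) (F c) := by
          have h0 : μ (∑ i, f a i • F (b i)) (F c) = ∑ i, μ (f a i • F (b i)) (F c) := by
            rw [map_sum μ, LinearMap.sum_apply]
          rw [← h0, ← hFa a]
        have hr2 : ∀ i, μ (F (b i)) (F c) = ∑ j, μ (F (b i)) (f c j • F (b j)) := by
          intro i
          rw [← map_sum (μ (F (b i))), ← hFa c]
        rw [hl, hr]
        refine Finset.sum_congr rfl fun i _ => ?_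
        rw [hμ1, hr2, Finset.smul_sum]
        refine Finset.sum_congr rfl fun j _ => ?_
        rw [hμ2, smul_smul, hb]
      refine ⟨⟨ψ, hψ⟩, ?_⟩
      apply hinj
      intro k
      show f (F x) k = f y k
      rw [hfF, h5 k]
  rw [e]
  exact (flc_orbC m J (f x)).preimage hf

end alg

end Pool.Agent.H13LA
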